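import Mathlib

/-!
# MP_222fdd_al : amenability constants of central Fourier algebras and Hall quotients

For every finite group `G` and every normal Hall subgroup `N` of `G`,
`AMZA(G/N) ≤ AMZA(G)`.
-/

namespace Pool.Agent.Results.MP_222fdd_al.HallQuotient

open scoped ENNReal
open Representation

/-- `f` is an irreducible complex character of `G`. -/
def IsIrrChar {G : Type*} [Group G] (f : G → ℂ) : Prop :=
  ∃ (V : Type) (_ : AddCommGroup V) (_ : Module ℂ V) (_ : FiniteDimensional ℂ V)
    (ρ : Representation ℂ G V), ρ.IsIrreducible ∧ ρ.character = f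

/-- `u` is a class function on `G`. -/
def IsClassFun {G : Type*} [Group G] (u : G → ℂ) : Prop :=
  ∀ x y : G, IsConj x y → u x = u y

/-- The sum `∑ χ(1) |c_χ|` for a finitely supported family of coefficients `c_χ`. -/
noncomputable def wnorm {G : Type*} [Group G] (c : (G → ℂ) →₀ ℂ) : ℝ≥0∞ :=
  c.sum fun χ a => ‖χ 1‖ₑ * ‖a‖ₑ

/-- The norm of `ZA(G)`: if `u = ∑ c_χ χ` over the irreducible characters `χ` of `G`, then
`‖u‖ = ∑ χ(1) |c_χ|`.  (The irreducible characters are linearly independent and span the class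
functions, so the infimum is taken over exactly one family `c`.) -/
noncomputable def ZAnorm {G : Type*} [Group G] (u : G → ℂ) : ℝ≥0∞ :=
  ⨅ (c : (G → ℂ) →₀ ℂ) (_ : ∀ χ ∈ c.support, IsIrrChar χ)
    (_ : u = c.sum fun χ a => a • χ), wnorm c

/-- The amenability constant `AMZA(G) = ‖∑_C 1_C ⊗ 1_C‖` in the projective tensor product
`ZA(G) ⊗̂ ZA(G)`: the infimum of `∑ ‖u_i‖ ‖v_i‖` over all finite families of class functions with
`∑ u_i ⊗ v_i = ∑_C 1_C ⊗ 1_C`, that is, `∑ u_i(x) v_i(y) = 1` if `x`, `y` are conjugate and `0`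
otherwise. -/
noncomputable def AMZA (G : Type*) [Group G] : ℝ≥0∞ :=
  open scoped Classical in
  ⨅ (n : ℕ) (u : Fin n → G → ℂ) (v : Fin n → G → ℂ) (_ : ∀ i, IsClassFun (u i))
    (_ : ∀ i, IsClassFun (v i))
    (_ : ∀ x y : G, ∑ i, u i x * v i y = if IsConj x y then 1 else 0),
    ∑ i, ZAnorm (u i) * ZAnorm (v i)

/-! ### The weighted norm -/

section wnorm

variable {G : Type*} [Group G]

theorem wnorm_zero : wnorm (0 : (G → ℂ) →₀ ℂ) = 0 := by simp [wnorm]

theorem wnorm_single (χ : G → ℂ) (a : ℂ) : wnorm (Finsupp.single χ a) = ‖χ 1‖ₑ * ‖a‖ₑ := by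
  unfold wnorm
  rw [Finsupp.sum_single_index]
  simp

theorem wnorm_add (c d : (G → ℂ) →₀ ℂ) : wnorm (c + d) ≤ wnorm c + wnorm d := by
  classical
  have h : ∀ e : (G → ℂ) →₀ ℂ, e.support ⊆ c.support ∪ d.support →
      wnorm e = ∑ χ ∈ c.support ∪ d.support, ‖χ 1‖ₑ * ‖e χ‖ₑ := by
    intro e he
    exact Finsupp.sum_of_support_subset _ he _ (by simp)
  rw [h _ Finsupp.support_add, h _ Finset.subset_union_left, h _ Finset.subset_union_right,
    ← Finset.sum_add_distrib]
  apply Finset.sum_le_sum
  intro χ _
  rw [← mul_add]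
  gcongr
  exact enorm_add_le _ _

theorem wnorm_sum {ι : Type*} (s : Finset ι) (c : ι → ((G → ℂ) →₀ ℂ)) :
    wnorm (∑ i ∈ s, c i) ≤ ∑ i ∈ s, wnorm (c i) := by
  classical
  induction s using Finset.induction_on with
  | empty => simp [wnorm_zero]
  | insert i s hi ih =>
    rw [Finset.sum_insert hi, Finset.sum_insert hi]
    exact (wnorm_add _ _).trans (add_le_add le_rfl ih)

theorem wnorm_smul (a : ℂ) (c : (G → ℂ) →₀ ℂ) : wnorm (a • c) ≤ ‖a‖ₑ * wnorm c := by
  classical
  have h : wnorm (a • c) = ∑ χ ∈ c.support, ‖χ 1‖ₑ * ‖(a • c) χ‖ₑ :=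
    Finsupp.sum_of_support_subset _ Finsupp.support_smul _ (by simp)
  rw [h]
  unfold wnorm Finsupp.sum
  rw [Finset.mul_sum]
  apply Finset.sum_le_sum
  intro χ _
  rw [Finsupp.smul_apply, smul_eq_mul, enorm_mul]
  apply le_of_eq; ring

end wnorm

/-! ### Decomposition of characters -/

theorem enorm_nat (n : ℕ) : ‖(n : ℂ)‖ₑ = (n : ℝ≥0∞) := by
  rw [← ofReal_norm, Complex.norm_natCast, ENNReal.ofReal_natCast]

theorem char_split {Q V : Type*} [Group Q] [AddCommGroup V] [Module ℂ V] [FiniteDimensional ℂ V]
    (ρ : Representation ℂ Q V) (σ τ : Subrepresentation ρ)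
    (h : IsCompl σ.toSubmodule τ.toSubmodule) (g : Q) :
    ρ.character g = σ.toRepresentation.character g + τ.toRepresentation.character g := by
  unfold Representation.character
  let e := Submodule.prodEquivOfIsCompl _ _ h
  have h1 : ρ g = e.conj (LinearMap.prodMap (σ.toRepresentation g) (τ.toRepresentation g)) := by
    apply LinearMap.ext
    intro x
    obtain ⟨⟨a, b⟩, rfl⟩ := e.surjective x
    rw [LinearEquiv.conj_apply_apply, LinearEquiv.symm_apply_apply]
    simp only [LinearMap.prodMap_apply]
    show ρ g (Submodule.prodEquivOfIsCompl _ _ h (a, b)) = Submodule.prodEquivOfIsCompl _ _ h _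
    rw [Submodule.coe_prodEquivOfIsCompl', Submodule.coe_prodEquivOfIsCompl', map_add]
    rfl
  rw [h1, LinearMap.trace_conj', LinearMap.trace_prodMap']

theorem exists_decomp {Q : Type*} [Group Q] [Finite Q] (n : ℕ) :
    ∀ (V : Type) [AddCommGroup V] [Module ℂ V] [FiniteDimensional ℂ V]
      (ρ : Representation ℂ Q V), Module.finrank ℂ V = n →
      ∃ c : (Q → ℂ) →₀ ℂ, (∀ χ ∈ c.support, IsIrrChar χ) ∧
        (ρ.character = c.sum fun χ a => a • χ) ∧ wnorm c ≤ ‖ρ.character 1‖ₑ := by
  classical
  induction n using Nat.strong_induction_on with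
  | _ n ih =>
    intro V _ _ _ ρ hn
    rcases Nat.eq_zero_or_pos n with h0 | hpos
    · refine ⟨0, by simp, ?_, by rw [wnorm_zero]; exact zero_le⟩
      have : Subsingleton V := by
        rw [h0] at hn
        exact Module.finrank_zero_iff.mp hn
      funext g
      rw [Finsupp.sum_zero_index]
      unfold Representation.character
      have : ρ g = 0 := by ext x; exact Subsingleton.elim _ _
      rw [this]; simp
    · by_cases hirr : ρ.IsIrreducible
      · refine ⟨Finsupp.single ρ.character 1, ?_, ?_, ?_⟩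
        · intro χ hχ
          have := Finsupp.support_single_subset hχ
          rw [Finset.mem_singleton] at this
          subst this
          exact ⟨V, inferInstance, inferInstance, inferInstance, ρ, hirr, rfl⟩
        · rw [Finsupp.sum_single_index (by simp), one_smul]
        · rw [wnorm_single]; simp
      · have hnt : Nontrivial V := Module.finrank_pos_iff.mp (by rw [hn]; exact hpos)
        have hex : ∃ σ : Subrepresentation ρ, σ ≠ ⊥ ∧ σ ≠ ⊤ := by
          by_contra hcon
          push Not at hcon
          apply hirr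
          have hne : (⊥ : Subrepresentation ρ) ≠ ⊤ := by
            intro h
            have h2 : (⊥ : Submodule ℂ V) = ⊤ := congrArg Subrepresentation.toSubmodule h
            exact bot_ne_top h2
          have : Nontrivial (Subrepresentation ρ) := ⟨⟨_, _, hne⟩⟩
          exact ⟨fun σ => by
            by_cases h : σ = ⊥
            · exact Or.inl h
            · exact Or.inr (hcon σ h)⟩
        obtain ⟨σ, hσ1, hσ2⟩ := hex
        have : NeZero (Nat.card Q : ℂ) := ⟨by
          exact_mod_cast Nat.card_pos.ne'⟩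
        have hss : ρ.IsSemisimpleRepresentation := by
          rw [isSemisimpleRepresentation_iff_isSemisimpleModule_asModule]
          infer_instance
        obtain ⟨τ, hτ⟩ := hss.exists_isCompl σ
        have hc : IsCompl σ.toSubmodule τ.toSubmodule := by
          constructor
          · rw [disjoint_iff]
            have := congrArg Subrepresentation.toSubmodule hτ.inf_eq_bot
            exact this
          · rw [codisjoint_iff]
            have := congrArg Subrepresentation.toSubmodule hτ.sup_eq_top
            exact this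
        have hdim : Module.finrank ℂ σ.toSubmodule + Module.finrank ℂ τ.toSubmodule = n := by
          rw [← hn]; exact Submodule.finrank_add_eq_of_isCompl hc
        have hσpos : 0 < Module.finrank ℂ σ.toSubmodule := by
          rw [Nat.pos_iff_ne_zero]
          intro h
          apply hσ1
          apply Subrepresentation.toSubmodule_injective
          exact Submodule.finrank_eq_zero.mp h
        have hσlt : Module.finrank ℂ σ.toSubmodule < n := by
          rw [← hn]
          apply Submodule.finrank_lt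
          intro h
          apply hσ2
          apply Subrepresentation.toSubmodule_injective
          exact h
        obtain ⟨c, hc1, hc2, hc3⟩ := ih _ hσlt _ σ.toRepresentation rfl
        obtain ⟨d, hd1, hd2, hd3⟩ := ih _ (by omega) _ τ.toRepresentation rfl
        refine ⟨c + d, ?_, ?_, ?_⟩
        · intro χ hχ
          rcases Finset.mem_union.mp (Finsupp.support_add hχ) with h | h
          · exact hc1 χ h
          · exact hd1 χ h
        · rw [Finsupp.sum_add_index' (by simp) (by intro a b c; rw [add_smul]), ← hc2, ← hd2]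
          funext g
          exact char_split ρ σ τ hc g
        · refine (wnorm_add c d).trans ((add_le_add hc3 hd3).trans ?_)
          rw [char_one, char_one, char_one, enorm_nat, enorm_nat, enorm_nat, hn, ← hdim]
          push_cast
          exact le_rfl

/-! ### Functoriality -/

/-- Restriction along a homomorphism does not increase the norm. -/
theorem ZAnorm_comp_le {G Q : Type*} [Group G] [Group Q] [Finite Q] (s : Q →* G) (u : G → ℂ) :
    ZAnorm (fun q => u (s q)) ≤ ZAnorm u := by
  classical
  unfold ZAnorm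
  refine le_iInf fun c => le_iInf fun hc => le_iInf fun hu => ?_
  -- decompose every `χ ∘ s`
  have hdec : ∀ χ : G → ℂ, χ ∈ c.support → ∃ d : (Q → ℂ) →₀ ℂ, (∀ ψ ∈ d.support, IsIrrChar ψ) ∧
      ((fun q => χ (s q)) = d.sum fun ψ a => a • ψ) ∧ wnorm d ≤ ‖χ 1‖ₑ := by
    intro χ hχ
    obtain ⟨V, _, _, _, ρ, -, rfl⟩ := hc χ hχ
    obtain ⟨d, hd1, hd2, hd3⟩ := exists_decomp (Q := Q) _ V (ρ.comp s) rfl
    refine ⟨d, hd1, ?_, ?_⟩
    · rw [← hd2]; rfl
    · refine hd3.trans (le_of_eq ?_)
      rw [char_one, char_one]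
  choose! d hd1 hd2 hd3 using hdec
  let D : (Q → ℂ) →₀ ℂ := ∑ χ ∈ c.support, c χ • d χ
  have hD1 : ∀ ψ ∈ D.support, IsIrrChar ψ := by
    intro ψ hψ
    have h1 := Finsupp.support_finsetSum hψ
    rw [Finset.mem_biUnion] at h1
    obtain ⟨χ, hχ, h2⟩ := h1
    exact hd1 χ hχ ψ (Finsupp.support_smul h2)
  have hD2 : (fun q => u (s q)) = D.sum fun ψ a => a • ψ := by
    have hlin : ∀ e : (Q → ℂ) →₀ ℂ, (e.sum fun ψ a => a • ψ)
        = Finsupp.linearCombination ℂ (id : (Q → ℂ) → (Q → ℂ)) e := by
      intro e; rw [Finsupp.linearCombination_apply]; rfl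
    rw [hlin, map_sum]
    have h3 : ∀ χ ∈ c.support, Finsupp.linearCombination ℂ (id : (Q → ℂ) → (Q → ℂ)) (c χ • d χ)
        = c χ • fun q => χ (s q) := by
      intro χ hχ
      rw [map_smul, ← hlin, ← hd2 χ hχ]
    rw [Finset.sum_congr rfl h3]
    funext q
    rw [hu, Finsupp.sum, Finset.sum_apply, Finset.sum_apply]
    rfl
  have hD3 : wnorm D ≤ wnorm c := by
    refine (wnorm_sum _ _).trans ?_
    unfold wnorm Finsupp.sum
    apply Finset.sum_le_sum
    intro χ hχ
    refine (wnorm_smul _ _).trans ?_
    rw [mul_comm]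
    exact mul_le_mul' (hd3 χ hχ) le_rfl
  refine (iInf_le_of_le D (iInf_le_of_le hD1 (iInf_le_of_le hD2 hD3)))

/-- If `G → Q` has a splitting then `AMZA(Q) ≤ AMZA(G)`. -/
theorem AMZA_le_of_split {G Q : Type*} [Group G] [Group Q] [Finite Q] (π : G →* Q) (s : Q →* G)
    (h : ∀ q, π (s q) = q) : AMZA Q ≤ AMZA G := by
  classical
  unfold AMZA
  refine le_iInf fun n => le_iInf fun u => le_iInf fun v => le_iInf fun hu => le_iInf fun hv =>
    le_iInf fun huv => ?_
  refine iInf_le_of_le n (iInf_le_of_le (fun i q => u i (s q))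
    (iInf_le_of_le (fun i q => v i (s q)) (iInf_le_of_le ?_ (iInf_le_of_le ?_
      (iInf_le_of_le ?_ ?_)))))
  · intro i x y hxy
    exact hu i _ _ (s.map_isConj hxy)
  · intro i x y hxy
    exact hv i _ _ (s.map_isConj hxy)
  · intro x y
    rw [huv (s x) (s y)]
    have : IsConj (s x) (s y) ↔ IsConj x y := by
      constructor
      · intro hc
        have := π.map_isConj hc
        rwa [h, h] at this
      · exact fun hc => s.map_isConj hc
    simp only [this]
  · apply Finset.sum_le_sum
    intro i _
    exact mul_le_mul' (ZAnorm_comp_le s (u i)) (ZAnorm_comp_le s (v i))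

/-- **Theorem.** Let `G` be a finite group and let `N` be a normal Hall subgroup of `G`.  Then
`AMZA(G/N) ≤ AMZA(G)`. -/
theorem result {G : Type*} [Group G] [Finite G] (N : Subgroup G) [N.Normal]
    (hN : Nat.Coprime (Nat.card N) N.index) : AMZA (G ⧸ N) ≤ AMZA G := by
  obtain ⟨K, hK⟩ := Subgroup.exists_left_complement'_of_coprime hN
  let e := hK.QuotientMulEquiv
  refine AMZA_le_of_split (QuotientGroup.mk' N) (K.subtype.comp e.toMonoidHom) ?_
  intro q
  obtain ⟨k, rfl⟩ := e.symm.surjective q
  show QuotientGroup.mk' N (K.subtype (e (e.symm k))) = e.symm k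
  rw [MulEquiv.apply_symm_apply]
  rfl

end Pool.Agent.Results.MP_222fdd_al.HallQuotient
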